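import Pool.Agent.N585.FP.Defs

/-!
# 2-layer fan-planar graphs: components (subtask FP/7)
-/

set_option autoImplicit false

namespace Pool.Agent.N571.FP

open Pool.Agent.N585.FP

variable {G : SimpleGraph ℕ}

/-- Drawings restrict to subsets. -/
theorem draw_mono {U U' : Finset ℕ} (hU : U' ⊆ U) {side : ℕ → Bool} {p : ℕ → ℕ}
    (h : Draw G U side p) : Draw G U' side p := by
  have hE : ∀ a b, Ed G U' side a b → Ed G U side a b := fun a b he =>
    ⟨hU he.1, hU he.2.1, he.2.2⟩
  refine ⟨fun x hx y hy => h.inj x (hU hx) y (hU hy), fun x hx y hy => h.bip x (hU hx) y (hU hy),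
    fun a b a₁ b₁ a₂ b₂ h0 h1 h2 => h.fan a b a₁ b₁ a₂ b₂ (hE _ _ h0) (hE _ _ h1) (hE _ _ h2)⟩

theorem drawable_mono {U U' : Finset ℕ} (hU : U' ⊆ U) (h : Drawable G U) : Drawable G U' := by
  obtain ⟨side, p, hd⟩ := h
  exact ⟨side, p, draw_mono hU hd⟩

/-- Two drawings next to each other. -/
theorem glue {A B : Finset ℕ} (hAB : ∀ x ∈ A, x ∉ B)
    (hno : ∀ x ∈ A, ∀ y ∈ B, ¬ G.Adj x y) (hA : Drawable G A) (hB : Drawable G B) :
    Drawable G (A ∪ B) := by
  classical
  obtain ⟨sA, pA, dA⟩ := hA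
  obtain ⟨sB, pB, dB⟩ := hB
  obtain ⟨M, hM⟩ : ∃ M : ℕ, ∀ x ∈ A, pA x < M := by
    refine ⟨A.sup pA + 1, fun x hx => ?_⟩
    exact Nat.lt_succ_of_le (Finset.le_sup (f := pA) hx)
  let s : ℕ → Bool := fun x => if x ∈ A then sA x else sB x
  let p : ℕ → ℕ := fun x => if x ∈ A then pA x else M + pB x
  have sAe : ∀ x ∈ A, s x = sA x := fun x hx => if_pos hx
  have pAe : ∀ x ∈ A, p x = pA x := fun x hx => if_pos hx
  have hBA : ∀ x ∈ B, x ∉ A := fun x hx hx' => hAB x hx' hx
  have sBe : ∀ x ∈ B, s x = sB x := fun x hx => if_neg (hBA x hx)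
  have pBe : ∀ x ∈ B, p x = M + pB x := fun x hx => if_neg (hBA x hx)
  -- edges lie on one side
  have hEd : ∀ a b, Ed G (A ∪ B) s a b →
      (Ed G A sA a b) ∨ (Ed G B sB a b) := by
    rintro a b ⟨ha, hb, h1, h2, h3⟩
    rcases Finset.mem_union.1 ha with ha | ha
    · rcases Finset.mem_union.1 hb with hb | hb
      · left
        exact ⟨ha, hb, by rw [← sAe a ha]; exact h1, by rw [← sAe b hb]; exact h2, h3⟩
      · exact absurd h3 (hno a ha b hb)
    · rcases Finset.mem_union.1 hb with hb | hb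
      · exact absurd h3.symm (hno b hb a ha)
      · right
        exact ⟨ha, hb, by rw [← sBe a ha]; exact h1, by rw [← sBe b hb]; exact h2, h3⟩
  have crA : ∀ a b a' b', Ed G A sA a b → Ed G A sA a' b' → Cross p a b a' b' →
      Cross pA a b a' b' := by
    intro a b a' b' h h' hc
    unfold Cross at hc ⊢
    rw [pAe a h.1, pAe b h.2.1, pAe a' h'.1, pAe b' h'.2.1] at hc
    exact hc
  have crB : ∀ a b a' b', Ed G B sB a b → Ed G B sB a' b' → Cross p a b a' b' →
      Cross pB a b a' b' := by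
    intro a b a' b' h h' hc
    unfold Cross at hc ⊢
    rw [pBe a h.1, pBe b h.2.1, pBe a' h'.1, pBe b' h'.2.1] at hc
    omega
  have crAB : ∀ a b a' b', Ed G A sA a b → Ed G B sB a' b' → ¬ Cross p a b a' b' := by
    intro a b a' b' h h' hc
    unfold Cross at hc
    rw [pAe a h.1, pAe b h.2.1, pBe a' h'.1, pBe b' h'.2.1] at hc
    have h1 := hM a h.1
    have h2 := hM b h.2.1
    omega
  have crBA : ∀ a b a' b', Ed G B sB a b → Ed G A sA a' b' → ¬ Cross p a b a' b' := by
    intro a b a' b' h h' hc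
    unfold Cross at hc
    rw [pBe a h.1, pBe b h.2.1, pAe a' h'.1, pAe b' h'.2.1] at hc
    have h1 := hM a' h'.1
    have h2 := hM b' h'.2.1
    omega
  refine ⟨s, p, ?_, ?_, ?_⟩
  · intro x hx y hy hxy
    rcases Finset.mem_union.1 hx with hx | hx <;> rcases Finset.mem_union.1 hy with hy | hy
    · rw [pAe x hx, pAe y hy] at hxy
      exact dA.inj x hx y hy hxy
    · rw [pAe x hx, pBe y hy] at hxy
      have := hM x hx
      omega
    · rw [pBe x hx, pAe y hy] at hxy
      have := hM y hy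
      omega
    · rw [pBe x hx, pBe y hy] at hxy
      exact dB.inj x hx y hy (by omega)
  · intro x hx y hy hxy
    rcases Finset.mem_union.1 hx with hx | hx <;> rcases Finset.mem_union.1 hy with hy | hy
    · rw [sAe x hx, sAe y hy]
      exact dA.bip x hx y hy hxy
    · exact absurd hxy (hno x hx y hy)
    · exact absurd hxy.symm (hno y hy x hx)
    · rw [sBe x hx, sBe y hy]
      exact dB.bip x hx y hy hxy
  · intro a b a₁ b₁ a₂ b₂ h h1 h2 c1 c2
    rcases hEd _ _ h with h | h
    · rcases hEd _ _ h1 with h1 | h1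
      · rcases hEd _ _ h2 with h2 | h2
        · exact dA.fan a b a₁ b₁ a₂ b₂ h h1 h2 (crA _ _ _ _ h h1 c1) (crA _ _ _ _ h h2 c2)
        · exact absurd c2 (crAB _ _ _ _ h h2)
      · exact absurd c1 (crAB _ _ _ _ h h1)
    · rcases hEd _ _ h1 with h1 | h1
      · exact absurd c1 (crBA _ _ _ _ h h1)
      · rcases hEd _ _ h2 with h2 | h2
        · exact absurd c2 (crBA _ _ _ _ h h2)
        · exact dB.fan a b a₁ b₁ a₂ b₂ h h1 h2 (crB _ _ _ _ h h1 c1) (crB _ _ _ _ h h2 c2)

theorem mem_comp {U : Finset ℕ} {x y : ℕ} : y ∈ comp G U x ↔ y ∈ U ∧ Reach G U x y := by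
  classical
  unfold comp
  rw [Finset.mem_filter]

theorem comp_sub {U : Finset ℕ} {x : ℕ} : comp G U x ⊆ U := fun _ hy => (mem_comp.1 hy).1

theorem self_mem {U : Finset ℕ} {x : ℕ} (hx : x ∈ U) : x ∈ comp G U x :=
  mem_comp.2 ⟨hx, Relation.ReflTransGen.refl⟩

/-- Components are closed under adjacency. -/
theorem comp_closed {U : Finset ℕ} {x y z : ℕ} (hy : y ∈ comp G U x) (hz : z ∈ U)
    (h : G.Adj y z) : z ∈ comp G U x := by
  obtain ⟨h1, h2⟩ := mem_comp.1 hy
  exact mem_comp.2 ⟨hz, h2.tail ⟨h1, hz, h⟩⟩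

/-- A set closed under adjacency contains the components of its elements. -/
theorem comp_sub_closed {U S : Finset ℕ} (hS : ∀ y ∈ S, ∀ z ∈ U, G.Adj y z → z ∈ S) {x : ℕ}
    (hx : x ∈ S) : comp G U x ⊆ S := by
  intro y hy
  obtain ⟨h1, h2⟩ := mem_comp.1 hy
  clear hy h1
  induction h2 with
  | refl => exact hx
  | tail _ h ih => exact hS _ ih _ h.2.1 h.2.2

theorem drawable_closed {U : Finset ℕ} (h : ∀ x ∈ U, Drawable G (comp G U x)) :
    ∀ (n : ℕ) (S : Finset ℕ), S.card = n → S ⊆ U → (∀ y ∈ S, ∀ z ∈ U, G.Adj y z → z ∈ S) →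
      Drawable G S := by
  classical
  intro n
  induction n using Nat.strong_induction_on with
  | _ n ih =>
    intro S hn hSU hS
    rcases S.eq_empty_or_nonempty with rfl | ⟨x, hx⟩
    · refine ⟨fun _ => true, id, ?_, ?_, ?_⟩
      · intro x hx
        exact absurd hx (Finset.notMem_empty x)
      · intro x hx
        exact absurd hx (Finset.notMem_empty x)
      · intro a b a₁ b₁ a₂ b₂ h1
        exact absurd h1.1 (Finset.notMem_empty a)
    · have hC := comp_sub_closed hS hx
      have hxC : x ∈ comp G U x := self_mem (hSU hx)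
      have e : S = comp G U x ∪ (S \ comp G U x) := (Finset.union_sdiff_of_subset hC).symm
      rw [e]
      refine glue ?_ ?_ (h x (hSU hx)) ?_
      · intro y hy hy'
        exact (Finset.mem_sdiff.1 hy').2 hy
      · intro y hy z hz hyz
        obtain ⟨hz1, hz2⟩ := Finset.mem_sdiff.1 hz
        exact hz2 (comp_closed hy (hSU hz1) hyz)
      · refine ih (S \ comp G U x).card ?_ _ rfl (Finset.sdiff_subset.trans hSU) ?_
        · rw [← hn]
          refine Finset.card_lt_card ?_
          refine Finset.ssubset_iff_subset_ne.2 ⟨Finset.sdiff_subset, fun hEq => ?_⟩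
          have : x ∈ S \ comp G U x := by rw [hEq]; exact hx
          exact (Finset.mem_sdiff.1 this).2 hxC
        · intro y hy z hz hyz
          obtain ⟨hy1, hy2⟩ := Finset.mem_sdiff.1 hy
          refine Finset.mem_sdiff.2 ⟨hS y hy1 z hz hyz, fun hz' => hy2 ?_⟩
          exact comp_closed hz' (hSU hy1) hyz.symm

theorem reach_symm {U : Finset ℕ} {x y : ℕ} (h : Reach G U x y) : Reach G U y x := by
  unfold Reach at h ⊢
  induction h with
  | refl => exact Relation.ReflTransGen.refl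
  | tail _ h ih => exact Relation.ReflTransGen.head ⟨h.2.1, h.1, h.2.2.symm⟩ ih

theorem reach_comp {U : Finset ℕ} {x y : ℕ} (hx : x ∈ U) (h : Reach G U x y) :
    Reach G (comp G U x) x y := by
  unfold Reach at h ⊢
  induction h with
  | refl => exact Relation.ReflTransGen.refl
  | tail h0 h ih =>
    refine ih.tail ⟨?_, ?_, h.2.2⟩
    · exact mem_comp.2 ⟨h.1, h0⟩
    · exact mem_comp.2 ⟨h.2.1, h0.tail h⟩

theorem stmComp : StmComp := by
  intro G U
  refine ⟨⟨fun h x _ => drawable_mono comp_sub h, fun h => ?_⟩, ?_, ?_⟩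
  · exact drawable_closed h U.card U rfl (Finset.Subset.refl U) (fun y _ z hz _ => hz)
  · intro h x hx S hS hT
    refine h S (hS.trans comp_sub) ?_
    intro y hy z hz w hw
    constructor
    · intro hyw
      exact (hT y hy z hz w (comp_closed (hS hy) hw hyw)).1 hyw
    · intro hzw
      exact (hT y hy z hz w (comp_closed (hS hz) hw hzw)).2 hzw
  · intro x hx y hy z hz
    obtain ⟨_, hy2⟩ := mem_comp.1 hy
    obtain ⟨_, hz2⟩ := mem_comp.1 hz
    exact Relation.ReflTransGen.trans (reach_symm (reach_comp hx hy2)) (reach_comp hx hz2)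

end Pool.Agent.N571.FP
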